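import Pool.Agent.Helper79.PN.Lem

set_option autoImplicit false

/-!
# The quadratic form (module EXP)
-/

open scoped Classical

namespace Pool.Agent.Helper88.PN

open Pool.Agent.Helper79.PN

theorem exp_mul {a b : Lam → ℝ} (ha : Sq a) (hb : Sq b) : Summable fun K => a K * b K := by
  refine Summable.of_norm_bounded (g := fun K => a K ^ 2 + b K ^ 2) (ha.add hb) fun K => ?_
  rw [Real.norm_eq_abs, abs_le]
  constructor
  · nlinarith [sq_nonneg (a K + b K), sq_nonneg (a K), sq_nonneg (b K)]
  · nlinarith [sq_nonneg (a K - b K), sq_nonneg (a K), sq_nonneg (b K)]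

theorem exp_sq_pa {P : Pen} {f : Lam → ℝ} (hf : Sq f) : Sq (pa P f) := by
  refine Summable.of_nonneg_of_le (fun K => sq_nonneg _) (fun K => ?_) hf
  unfold pa
  split_ifs
  · nlinarith [sq_nonneg (f K)]
  · exact le_rfl

theorem exp_sq_pb {P : Pen} {f : Lam → ℝ} (hf : Sq f) : Sq (pb P f) := by
  refine Summable.of_nonneg_of_le (fun K => sq_nonneg _) (fun K => ?_) hf
  unfold pb
  split_ifs
  · exact le_rfl
  · nlinarith [sq_nonneg (f K)]

theorem exp_adj_add (a b : Lam → ℝ) (K : Lam) : adj (fun K => a K + b K) K = adj a K + adj b K := by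
  unfold adj
  rw [← Finset.sum_add_distrib]
  exact Finset.sum_congr rfl fun i _ => by ring

theorem exp_split (P : Pen) (f : Lam → ℝ) : f = fun K => pa P f K + pb P f K := by
  funext K
  unfold pa pb
  split_ifs
  · ring
  · ring

theorem exp_pa_mir (P : Pen) (f : Lam → ℝ) : pa P.mir (ng f) = ng (pa P f) := by
  funext K
  unfold pa ng
  simp only [isT_mir']

theorem exp_pb_mir (P : Pen) (f : Lam → ℝ) : pb P.mir (ng f) = ng (pb P f) := by
  funext K
  unfold pb ng
  simp only [isT_mir']

theorem exp_uu_mir (hADJ : ST_ADJ) (P : Pen) (s : ℝ) (f : Lam → ℝ) :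
    uu P.mir s (ng f) = ng (uu P s f) := by
  obtain ⟨-, -, -, h4, h5⟩ := hADJ
  funext K
  have e1 : dg P.mir K = dg P (-K) := by
    have h := (h4 P (-K)).2.2
    rwa [neg_neg] at h
  have e2 : adj (ng f) K = adj f (-K) := by
    have h := h5 f (-K)
    rwa [neg_neg] at h
  have e3 : ind (InV P.mir K) = ind (InV P (-K)) := by
    rw [inv_mir']
  unfold uu
  rw [e1, e2, e3]
  rfl

theorem st_EXP (hSMT : ST_SMT) (hADJ : ST_ADJ) (hLOW : ST_LOW) (hEDG : ST_EDG)
    (hBLX : ST_BLX) (hTT : ST_TT) : ST_EXP := by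
  intro P s f hf hS
  obtain ⟨hA1, hA2, -, hA4, -⟩ := id hADJ
  have hsqng : Sq (ng f) := (hSMT.1 f hf).1
  have hSm : Sup P.mir (ng f) := by
    intro K hK
    rw [inv_mir'] at hK
    exact hS _ hK
  have hB1 := hBLX P s f hf hS
  have hB2 := hBLX P.mir s (ng f) hsqng hSm
  rw [exp_pa_mir, exp_pb_mir, exp_uu_mir hADJ] at hB2
  have hasq : Sq (pa P f) := exp_sq_pa hf
  have hbsq : Sq (pb P f) := exp_sq_pb hf
  have ha4 : Sup4 P (pa P f) := by
    intro K hK
    unfold pa
    split_ifs with h
    · rfl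
    · rcases hK with h1 | h1
      · exact hS K h1
      · exact absurd h1 h
  have ha4m : Sup4 P.mir (ng (pa P f)) := by
    intro K hK
    rw [inv_mir', isT_mir'] at hK
    exact ha4 _ hK
  have hangsq : Sq (ng (pa P f)) := (hSMT.1 _ hasq).1
  have hL1 := hLOW P (pa P f) hasq ha4
  have hL2 := hLOW P.mir (ng (pa P f)) hangsq ha4m
  have hE := hEDG P (pa P f) hasq ha4
  have hAB := hA2 (pa P f) (pb P f) hasq hbsq
  -- pointwise identities
  have hadj : ∀ K, adj f K = adj (pa P f) K + adj (pb P f) K := by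
    intro K
    rw [← exp_adj_add, ← exp_split]
  have hbS : Sup P (pb P f) := by
    intro K hK
    unfold pb
    split_ifs
    · exact hS K hK
    · rfl
  have hbT : ∀ K, ¬ IsT P K → pb P f K = 0 := fun K hK => if_neg hK
  have hp1 : ∀ K, uu P s f K * pa P f K = (dg P K - 3 - s) * pa P f K ^ 2
      - pa P f K * adj (pa P f) K - pa P f K * adj (pb P f) K := by
    intro K
    by_cases hT : IsT P K
    · have h0 : pa P f K = 0 := if_pos hT
      rw [h0]
      ring
    · have h0 : pa P f K = f K := if_neg hT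
      by_cases hI : InV P K
      · unfold uu
        rw [ind_true hI, hadj K, ← h0]
        ring
      · have h1 : pa P f K = 0 := by rw [h0, hS K hI]
        rw [h1]
        ring
  have hp2 : ∀ K, uu P s f K * pb P f K = -(s * pb P f K ^ 2)
      - pb P f K * adj (pa P f) K := by
    intro K
    by_cases hT : IsT P K
    · have h0 : pb P f K = f K := if_pos hT
      obtain ⟨hI, hd, hz⟩ := hTT P K hT
      unfold uu
      rw [ind_true hI, hadj K, hz _ hbS hbT, hd, ← h0]
      ring
    · rw [hbT K hT]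
      ring
  -- summability
  have s1 : Summable fun K => (dg P K - 3 - s) * pa P f K ^ 2 := by
    refine Summable.of_norm_bounded (g := fun K => (13 + |s|) * pa P f K ^ 2)
      (hasq.mul_left _) fun K => ?_
    rw [norm_mul, Real.norm_eq_abs, Real.norm_eq_abs, abs_of_nonneg (sq_nonneg (pa P f K))]
    refine mul_le_mul_of_nonneg_right ?_ (sq_nonneg _)
    obtain ⟨h1, h2, -⟩ := hA4 P K
    have h3 := abs_nonneg s
    have h4 := neg_abs_le s
    have h5 := le_abs_self s
    rw [abs_le]
    constructor <;> linarith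
  have s2 : Summable fun K => pa P f K * adj (pa P f) K := exp_mul hasq (hA1 _ hasq)
  have s3 : Summable fun K => pa P f K * adj (pb P f) K := exp_mul hasq (hA1 _ hbsq)
  have s4 : Summable fun K => pb P f K * adj (pa P f) K := exp_mul hbsq (hA1 _ hasq)
  have s5 : Summable fun K => s * pb P f K ^ 2 := hbsq.mul_left s
  have t1 : ∑' K, uu P s f K * pa P f K = ∑' K, (dg P K - 3 - s) * pa P f K ^ 2
      - ∑' K, pa P f K * adj (pa P f) K - ∑' K, pa P f K * adj (pb P f) K := by
    rw [tsum_congr hp1, (s1.sub s2).tsum_sub s3, s1.tsum_sub s2]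
  have t2 : ∑' K, uu P s f K * pb P f K = -(s * ∑' K, pb P f K ^ 2)
      - ∑' K, pb P f K * adj (pa P f) K := by
    rw [tsum_congr hp2, s5.neg.tsum_sub s4, tsum_neg, tsum_mul_left]
  rw [t1, t2, hB1, hB2]
  linarith

end Pool.Agent.Helper88.PN
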