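import Pool.Agent.Helper79.PN.Lem

set_option autoImplicit false

/-!
# The graph Laplacian exists and is self-adjoint (module OPX)
-/

open scoped Classical

namespace Pool.Agent.Helper88.PN

open Pool.Agent.Helper79.PN

attribute [local irreducible] nbV

theorem opx_ex (θ : ℂ) (φ : Vert θ → ℝ) (h : Summable φ) : Summable (ex θ φ) := by
  have h1 : (fun K : {K : Lam | Acc θ K} => ex θ φ K) = φ := by
    funext K
    have h2 : Acc θ K.1 := K.2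
    unfold ex
    rw [dif_pos h2]
    rfl
  have h3 : Set.indicator {K : Lam | Acc θ K} (ex θ φ) = ex θ φ := by
    funext K
    by_cases hK : Acc θ K
    · exact Set.indicator_of_mem (s := {K : Lam | Acc θ K}) hK _
    · rw [Set.indicator_of_notMem (s := {K : Lam | Acc θ K}) hK]
      unfold ex
      rw [dif_neg hK]
  rw [← h3, ← summable_subtype_iff_indicator]
  have h4 : (ex θ φ) ∘ (Subtype.val : {K : Lam | Acc θ K} → Lam) = φ := h1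
  rw [h4]
  exact h

theorem opx_adj (a : Lam → ℝ) (ha : Summable a) : Summable (adj a) := by
  unfold adj
  refine summable_sum fun i _ => ?_
  refine Summable.add ?_ ?_
  · exact ((Equiv.addRight (e i)).summable_iff (f := a)).2 ha
  · exact ((Equiv.subRight (e i)).summable_iff (f := a)).2 ha

theorem opx_nb (hNBX : ST_NBX) (θ : ℂ) (φ : Vert θ → ℝ) (h : Summable φ) :
    Summable fun v : Vert θ => ∑ w ∈ nbV θ v, φ w := by
  have h1 : (fun v : Vert θ => ∑ w ∈ nbV θ v, φ w)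
      = (adj (ex θ φ)) ∘ (Subtype.val : Vert θ → Lam) := by
    funext v
    exact (hNBX θ v).1 φ
  rw [h1]
  exact (opx_adj _ (opx_ex θ φ h)).comp_injective Subtype.val_injective

theorem opx_card (hNBX : ST_NBX) (θ : ℂ) (v : Vert θ) : ((nbV θ v).card : ℝ) ≤ 10 := by
  rw [(hNBX θ v).2.1]
  unfold adj
  have h1 : ∀ i ∈ (Finset.univ : Finset (ZMod 5)), ind (Acc θ (v.1 + e i)) + ind (Acc θ (v.1 - e i))
      ≤ 2 := by
    intro i _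
    have h2 := ind_le_one (Acc θ (v.1 + e i))
    have h3 := ind_le_one (Acc θ (v.1 - e i))
    linarith
  have h4 := Finset.sum_le_card_nsmul _ _ _ h1
  rw [Finset.card_univ, ZMod.card, nsmul_eq_mul] at h4
  norm_num at h4
  exact h4

/-- the function `H ψ` -/
noncomputable def opf (θ : ℂ) (ψ : Vert θ → ℂ) (v : Vert θ) : ℂ := ∑ w ∈ nbV θ v, (ψ w - ψ v)

theorem opx_bound (hNBX : ST_NBX) (θ : ℂ) (ψ : Vert θ → ℂ) (v : Vert θ) :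
    ‖opf θ ψ v‖ ^ 2 ≤ 20 * ∑ w ∈ nbV θ v, ‖ψ w‖ ^ 2 + 200 * ‖ψ v‖ ^ 2 := by
  have hc := opx_card hNBX θ v
  have h1 : ‖opf θ ψ v‖ ≤ ∑ w ∈ nbV θ v, (‖ψ w‖ + ‖ψ v‖) := by
    unfold opf
    exact (norm_sum_le _ _).trans (Finset.sum_le_sum fun w _ => norm_sub_le _ _)
  have h2 : (∑ w ∈ nbV θ v, (‖ψ w‖ + ‖ψ v‖)) ^ 2
      ≤ (nbV θ v).card * ∑ w ∈ nbV θ v, (‖ψ w‖ + ‖ψ v‖) ^ 2 := sq_sum_le_card_mul_sum_sq
  have h3 : ∑ w ∈ nbV θ v, (‖ψ w‖ + ‖ψ v‖) ^ 2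
      ≤ 2 * ∑ w ∈ nbV θ v, ‖ψ w‖ ^ 2 + 2 * ((nbV θ v).card * ‖ψ v‖ ^ 2) := by
    rw [← nsmul_eq_mul, ← Finset.sum_const, Finset.mul_sum, Finset.mul_sum,
      ← Finset.sum_add_distrib]
    refine Finset.sum_le_sum fun w _ => ?_
    nlinarith [sq_nonneg (‖ψ w‖ - ‖ψ v‖)]
  have h4 : 0 ≤ ∑ w ∈ nbV θ v, (‖ψ w‖ + ‖ψ v‖) ^ 2 := Finset.sum_nonneg fun w _ => sq_nonneg _
  have h5 : ‖opf θ ψ v‖ ^ 2 ≤ (∑ w ∈ nbV θ v, (‖ψ w‖ + ‖ψ v‖)) ^ 2 :=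
    pow_le_pow_left₀ (norm_nonneg _) h1 2
  have h6 : ((nbV θ v).card : ℝ) * ∑ w ∈ nbV θ v, (‖ψ w‖ + ‖ψ v‖) ^ 2
      ≤ 10 * ∑ w ∈ nbV θ v, (‖ψ w‖ + ‖ψ v‖) ^ 2 := mul_le_mul_of_nonneg_right hc h4
  have h7 : ((nbV θ v).card : ℝ) * ‖ψ v‖ ^ 2 ≤ 10 * ‖ψ v‖ ^ 2 :=
    mul_le_mul_of_nonneg_right hc (sq_nonneg _)
  linarith

theorem opx_sq_iff (θ : ℂ) (ψ : Vert θ → ℂ) :
    Memℓp ψ 2 ↔ Summable fun v => ‖ψ v‖ ^ 2 := by
  rw [memℓp_gen_iff (by norm_num)]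
  simp only [ENNReal.toReal_ofNat, Real.rpow_ofNat]

theorem opx_mem (hNBX : ST_NBX) (θ : ℂ) (ψ : Vert θ → ℂ) (hψ : Memℓp ψ 2) :
    Memℓp (opf θ ψ) 2 := by
  rw [opx_sq_iff] at hψ ⊢
  refine Summable.of_nonneg_of_le (fun v => sq_nonneg _) (opx_bound hNBX θ ψ) ?_
  exact ((opx_nb hNBX θ _ hψ).mul_left 20).add (hψ.mul_left 200)

theorem opf_add (θ : ℂ) (φ ψ : Vert θ → ℂ) : opf θ (φ + ψ) = opf θ φ + opf θ ψ := by
  funext v
  rw [Pi.add_apply]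
  unfold opf
  rw [← Finset.sum_add_distrib]
  refine Finset.sum_congr rfl fun w _ => ?_
  rw [Pi.add_apply, Pi.add_apply]
  ring

theorem opf_smul (θ : ℂ) (c : ℂ) (ψ : Vert θ → ℂ) : opf θ (c • ψ) = c • opf θ ψ := by
  funext v
  rw [Pi.smul_apply]
  unfold opf
  rw [Finset.smul_sum]
  refine Finset.sum_congr rfl fun w _ => ?_
  rw [Pi.smul_apply, Pi.smul_apply, smul_sub]

/-- the linear map -/
noncomputable def opl (hNBX : ST_NBX) (θ : ℂ) : Hil θ →ₗ[ℂ] Hil θ where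
  toFun ψ := ⟨opf θ ψ, opx_mem hNBX θ ψ (lp.memℓp ψ)⟩
  map_add' φ ψ := Subtype.ext (opf_add θ φ ψ)
  map_smul' c ψ := Subtype.ext (opf_smul θ c ψ)

theorem opl_apply (hNBX : ST_NBX) (θ : ℂ) (ψ : Hil θ) (v : Vert θ) :
    (opl hNBX θ ψ : Vert θ → ℂ) v = ∑ w ∈ nbV θ v, ((ψ : Vert θ → ℂ) w - ψ v) := rfl

/-- the kernel -/
noncomputable def opk (θ : ℂ) (φ ψ : Vert θ → ℂ) (z : Vert θ × Vert θ) : ℂ :=
  if z.2 ∈ nbV θ z.1 then (starRingEnd ℂ) (φ z.2) * ψ z.1 else 0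

theorem opk_sum (θ : ℂ) (φ ψ : Vert θ → ℂ) (v : Vert θ) :
    HasSum (fun w => opk θ φ ψ (v, w)) (∑ w ∈ nbV θ v, (starRingEnd ℂ) (φ w) * ψ v) := by
  have h1 : ∑ w ∈ nbV θ v, (starRingEnd ℂ) (φ w) * ψ v
      = ∑ w ∈ nbV θ v, opk θ φ ψ (v, w) := by
    refine Finset.sum_congr rfl fun w hw => ?_
    unfold opk
    rw [if_pos hw]
  rw [h1]
  refine hasSum_sum_of_ne_finset_zero fun w hw => ?_
  unfold opk
  rw [if_neg hw]

theorem opk_sum' (hNBX : ST_NBX) (θ : ℂ) (φ ψ : Vert θ → ℂ) (w : Vert θ) :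
    HasSum (fun v => opk θ φ ψ (v, w)) (∑ v ∈ nbV θ w, (starRingEnd ℂ) (φ w) * ψ v) := by
  have h1 : ∑ v ∈ nbV θ w, (starRingEnd ℂ) (φ w) * ψ v
      = ∑ v ∈ nbV θ w, opk θ φ ψ (v, w) := by
    refine Finset.sum_congr rfl fun v hv => ?_
    unfold opk
    rw [if_pos (((hNBX θ v).2.2.2 w).2 hv)]
  rw [h1]
  refine hasSum_sum_of_ne_finset_zero fun v hv => ?_
  unfold opk
  rw [if_neg fun h => hv (((hNBX θ v).2.2.2 w).1 h)]

theorem opk_summable (hNBX : ST_NBX) (θ : ℂ) (φ ψ : Vert θ → ℂ)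
    (hφ : Summable fun v => ‖φ v‖ ^ 2) (hψ : Summable fun v => ‖ψ v‖ ^ 2) :
    Summable (opk θ φ ψ) := by
  refine Summable.of_norm ?_
  rw [summable_prod_of_nonneg fun z => norm_nonneg _]
  have h0 : ∀ v, HasSum (fun w => ‖opk θ φ ψ (v, w)‖) (∑ w ∈ nbV θ v, ‖φ w‖ * ‖ψ v‖) := by
    intro v
    have h1 : ∑ w ∈ nbV θ v, ‖φ w‖ * ‖ψ v‖ = ∑ w ∈ nbV θ v, ‖opk θ φ ψ (v, w)‖ := by
      refine Finset.sum_congr rfl fun w hw => ?_
      unfold opk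
      rw [if_pos hw, norm_mul, RCLike.norm_conj]
    rw [h1]
    refine hasSum_sum_of_ne_finset_zero fun w hw => ?_
    unfold opk
    rw [if_neg hw, norm_zero]
  refine ⟨fun v => (h0 v).summable, ?_⟩
  have h2 : (fun v => ∑' w, ‖opk θ φ ψ (v, w)‖) = fun v => ∑ w ∈ nbV θ v, ‖φ w‖ * ‖ψ v‖ := by
    funext v
    exact (h0 v).tsum_eq
  rw [h2]
  refine Summable.of_nonneg_of_le (fun v => Finset.sum_nonneg fun w _ => by positivity)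
    (fun v => ?_) ((opx_nb hNBX θ _ hφ).add (hψ.mul_left 10))
  have hc := opx_card hNBX θ v
  have h3 : ∑ w ∈ nbV θ v, ‖φ w‖ * ‖ψ v‖
      ≤ ∑ w ∈ nbV θ v, ‖φ w‖ ^ 2 + (nbV θ v).card * ‖ψ v‖ ^ 2 := by
    rw [← nsmul_eq_mul, ← Finset.sum_const, ← Finset.sum_add_distrib]
    refine Finset.sum_le_sum fun w _ => ?_
    nlinarith [sq_nonneg (‖φ w‖ - ‖ψ v‖), sq_nonneg ‖φ w‖, sq_nonneg ‖ψ v‖]
  have h4 : ((nbV θ v).card : ℝ) * ‖ψ v‖ ^ 2 ≤ 10 * ‖ψ v‖ ^ 2 :=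
    mul_le_mul_of_nonneg_right hc (sq_nonneg _)
  linarith

theorem opk_swap (hNBX : ST_NBX) (θ : ℂ) (φ ψ : Vert θ → ℂ)
    (hφ : Summable fun v => ‖φ v‖ ^ 2) (hψ : Summable fun v => ‖ψ v‖ ^ 2) :
    ∑' v, ∑ w ∈ nbV θ v, (starRingEnd ℂ) (φ w) * ψ v
      = ∑' v, ∑ w ∈ nbV θ v, (starRingEnd ℂ) (φ v) * ψ w := by
  have h1 : Summable (Function.uncurry fun v w => opk θ φ ψ (v, w)) :=
    (opk_summable hNBX θ φ ψ hφ hψ).congr fun z => rfl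
  have h2 : ∑' v, ∑' w, opk θ φ ψ (v, w) = ∑' w, ∑' v, opk θ φ ψ (v, w) := h1.tsum_comm.symm
  have h3 : (fun v => ∑' w, opk θ φ ψ (v, w))
      = fun v => ∑ w ∈ nbV θ v, (starRingEnd ℂ) (φ w) * ψ v :=
    funext fun v => (opk_sum θ φ ψ v).tsum_eq
  have h4 : (fun w => ∑' v, opk θ φ ψ (v, w))
      = fun w => ∑ v ∈ nbV θ w, (starRingEnd ℂ) (φ w) * ψ v :=
    funext fun w => (opk_sum' hNBX θ φ ψ w).tsum_eq
  rw [h3, h4] at h2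
  exact h2

theorem opk_row (hNBX : ST_NBX) (θ : ℂ) (φ ψ : Vert θ → ℂ)
    (hφ : Summable fun v => ‖φ v‖ ^ 2) (hψ : Summable fun v => ‖ψ v‖ ^ 2) :
    Summable fun v => ∑ w ∈ nbV θ v, (starRingEnd ℂ) (φ w) * ψ v := by
  have h1 : Summable fun v => ∑' w, opk θ φ ψ (v, w) := (opk_summable hNBX θ φ ψ hφ hψ).prod
  have h3 : (fun v => ∑' w, opk θ φ ψ (v, w))
      = fun v => ∑ w ∈ nbV θ v, (starRingEnd ℂ) (φ w) * ψ v :=
    funext fun v => (opk_sum θ φ ψ v).tsum_eq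
  rw [h3] at h1
  exact h1

theorem opl_symm (hNBX : ST_NBX) (θ : ℂ) : (opl hNBX θ).IsSymmetric := by
  intro φ ψ
  have hφ := (opx_sq_iff θ φ).1 (lp.memℓp φ)
  have hψ := (opx_sq_iff θ ψ).1 (lp.memℓp ψ)
  rw [lp.inner_eq_tsum, lp.inner_eq_tsum]
  have e1 : ∀ v, (inner ℂ ((opl hNBX θ φ : Vert θ → ℂ) v) ((ψ : Vert θ → ℂ) v) : ℂ)
      = ∑ w ∈ nbV θ v, (starRingEnd ℂ) ((φ : Vert θ → ℂ) w) * (ψ : Vert θ → ℂ) v
        - (nbV θ v).card * ((starRingEnd ℂ) ((φ : Vert θ → ℂ) v) * (ψ : Vert θ → ℂ) v) := by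
    intro v
    rw [opl_apply, RCLike.inner_apply, map_sum, ← nsmul_eq_mul, ← Finset.sum_const,
      ← Finset.sum_sub_distrib, Finset.mul_sum]
    refine Finset.sum_congr rfl fun w _ => ?_
    rw [map_sub]
    ring
  have e2 : ∀ v, (inner ℂ ((φ : Vert θ → ℂ) v) ((opl hNBX θ ψ : Vert θ → ℂ) v) : ℂ)
      = ∑ w ∈ nbV θ v, (starRingEnd ℂ) ((φ : Vert θ → ℂ) v) * (ψ : Vert θ → ℂ) w
        - (nbV θ v).card * ((starRingEnd ℂ) ((φ : Vert θ → ℂ) v) * (ψ : Vert θ → ℂ) v) := by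
    intro v
    rw [opl_apply, RCLike.inner_apply, ← nsmul_eq_mul, ← Finset.sum_const,
      ← Finset.sum_sub_distrib, Finset.sum_mul]
    refine Finset.sum_congr rfl fun w _ => ?_
    ring
  have s1 := opk_row hNBX θ φ ψ hφ hψ
  have s2 : Summable fun v => ∑ w ∈ nbV θ v,
      (starRingEnd ℂ) ((φ : Vert θ → ℂ) v) * (ψ : Vert θ → ℂ) w := by
    have h := opk_row hNBX θ ψ φ hψ hφ
    have h1 := h.star
    refine h1.congr fun v => ?_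
    simp only [star_sum, star_mul', RCLike.star_def, RCLike.conj_conj]
    exact Finset.sum_congr rfl fun w _ => by ring
  have s3 : Summable fun v => ((nbV θ v).card : ℂ)
      * ((starRingEnd ℂ) ((φ : Vert θ → ℂ) v) * (ψ : Vert θ → ℂ) v) := by
    have h0 : Summable fun v => (inner ℂ ((opl hNBX θ φ : Vert θ → ℂ) v)
        ((ψ : Vert θ → ℂ) v) : ℂ) := lp.summable_inner (opl hNBX θ φ) ψ
    refine (s1.sub h0).congr fun v => ?_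
    rw [e1]
    ring
  rw [tsum_congr e1, tsum_congr e2, s1.tsum_sub s3, s2.tsum_sub s3,
    opk_swap hNBX θ φ ψ hφ hψ]

theorem st_OPX (hNBX : ST_NBX) : ST_OPX := by
  intro θ
  have hs := opl_symm hNBX θ
  refine ⟨⟨opl hNBX θ, hs.continuous⟩, fun ψ v => opl_apply hNBX θ ψ v,
    ContinuousLinearMap.isSelfAdjoint_iff_isSymmetric.2 hs, ?_⟩
  intro H' hH'
  ext ψ v
  rw [hH' ψ v]
  exact (opl_apply hNBX θ ψ v).symm

end Pool.Agent.Helper88.PN
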